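import Pool.Agent.Lib.MP_8f0578_co.Metric

open Finset

namespace Pool.Agent.Lib.MP_8f0578_co

theorem sum_darts {V : Type*} {H : SimpleGraph V} (f : V → V → ℝ) {u v : V} (w : H.Walk u v) :
    (w.darts.map fun d => f d.fst d.snd).sum =
      ∑ t ∈ range w.length, f (w.getVert t) (w.getVert (t + 1)) := by
  induction w with
  | nil => simp
  | cons h p ih =>
    rw [SimpleGraph.Walk.darts_cons, List.map_cons, List.sum_cons, ih,
      SimpleGraph.Walk.length_cons, sum_range_succ', add_comm]
    simp

theorem main_walk {G : Type*} [Group G] [Fintype G] (H : SimpleGraph G)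
    (P : ∀ u v : G, H.Walk u v)
    (hpath : ∀ u v, (P u v).IsPath)
    (hsymm : ∀ u v, P v u = (P u v).reverse)
    (hcons : ∀ (u a b v : G) (w₁ : H.Walk u a) (w₂ : H.Walk a b) (w₃ : H.Walk b v),
      P u v = w₁.append (w₂.append w₃) → w₂ = P a b)
    (hinv : ∀ g x y, (P (g * x) (g * y)).support = (P x y).support.map (fun z => g * z)) :
    ∃ m : MetricSpace G, ∀ u v,
      ((P u v).darts.map fun d => m.dist d.fst d.snd).sum ≤
        9 * √(Fintype.card G) * m.dist u v := by
  have hsub : ∀ u v i j, i ≤ j → j ≤ (P u v).length →
      (P ((P u v).getVert i) ((P u v).getVert j)).length = j - i ∧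
      ∀ t, t ≤ j - i →
        (P ((P u v).getVert i) ((P u v).getVert j)).getVert t = (P u v).getVert (i + t) := by
    intro u v i j hij hj
    have h1 := hcons u _ _ v ((P u v).take i) (((P u v).drop i).take (j - i))
      (((P u v).drop i).drop (j - i))
      (by rw [SimpleGraph.Walk.append_take_drop_eq, SimpleGraph.Walk.append_take_drop_eq])
    have e : (P u v).getVert j = ((P u v).drop i).getVert (j - i) := by
      rw [SimpleGraph.Walk.drop_getVert]; congr 1; omega
    rw [e, ← h1]
    constructor
    · simp; omega
    · intro t ht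
      simp [ht]
  have hlen : ∀ g u v, (P (g * u) (g * v)).length = (P u v).length := by
    intro g u v
    have := congrArg List.length (hinv g u v)
    simpa using this
  let S : Sys G :=
    { len := fun u v => (P u v).length
      pt := fun u v t => (P u v).getVert t
      zero := fun u v => by simp
      last := fun u v => by simp
      inj := fun u v i j hi hj h => (hpath u v).getVert_injOn hi hj h
      sub_len := fun u v i j hij hj => (hsub u v i j hij hj).1
      sub_pt := fun u v i j t hij hj ht => (hsub u v i j hij hj).2 t ht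
      rev_len := fun u v => by rw [hsymm u v]; simp
      rev_pt := fun u v t => by rw [hsymm u v, SimpleGraph.Walk.getVert_reverse]
      mul_len := hlen
      mul_pt := fun g u v t => by
        rw [SimpleGraph.Walk.getVert_eq_getD_support, SimpleGraph.Walk.getVert_eq_getD_support,
          hinv]
        exact List.getD_map _ _ (fun z => g * z) }
  obtain ⟨Y, r, hY, hr, hmain⟩ := S.main
  refine ⟨{ dist := fun x y => (rho Y r x y : ℝ)
            dist_self := fun x => by simp [rho_self]
            dist_comm := fun x y => by rw [rho_comm Y hY]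
            dist_triangle := fun x y z => by exact_mod_cast rho_triangle Y r x y z
            eq_of_dist_eq_zero := fun {x y} h => eq_of_rho Y r hr x y (by exact_mod_cast h) },
    fun u v => ?_⟩
  show ((P u v).darts.map fun d => (rho Y r d.fst d.snd : ℝ)).sum ≤
    9 * √(Fintype.card G) * (rho Y r u v : ℝ)
  rw [sum_darts (fun x y => (rho Y r x y : ℝ))]
  have h1 : ((S.cost (rho Y r) u v : ℕ) : ℝ) ≤
      ((9 * Nat.sqrt (Fintype.card G) * rho Y r u v : ℕ) : ℝ) := by exact_mod_cast hmain u v
  have h2 : ((Nat.sqrt (Fintype.card G) : ℕ) : ℝ) ≤ √(Fintype.card G) := Real.nat_sqrt_le_real_sqrt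
  unfold Sys.cost at h1
  push_cast at h1
  refine le_trans h1 ?_
  gcongr

end Pool.Agent.Lib.MP_8f0578_co
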