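import Mathlib

open Finset
open scoped Pointwise

namespace Pool.Agent.Lib.MP_8f0578_co

/-- An invariant consistent path system on a group, in coordinates. -/
structure Sys (G : Type*) [Group G] where
  len : G → G → ℕ
  pt : G → G → ℕ → G
  zero : ∀ u v, pt u v 0 = u
  last : ∀ u v, pt u v (len u v) = v
  inj : ∀ u v i j, i ≤ len u v → j ≤ len u v → pt u v i = pt u v j → i = j
  sub_len : ∀ u v i j, i ≤ j → j ≤ len u v → len (pt u v i) (pt u v j) = j - i
  sub_pt : ∀ u v i j t, i ≤ j → j ≤ len u v → t ≤ j - i →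
    pt (pt u v i) (pt u v j) t = pt u v (i + t)
  rev_len : ∀ u v, len v u = len u v
  rev_pt : ∀ u v t, pt v u t = pt u v (len u v - t)
  mul_len : ∀ g u v, len (g * u) (g * v) = len u v
  mul_pt : ∀ g u v t, pt (g * u) (g * v) t = g * pt u v t

variable {G : Type*} [Group G] (S : Sys G)

namespace Sys

/-- The local type of an interior vertex. -/
def ty (u v : G) (i : ℕ) : Set G :=
  {(S.pt u v i)⁻¹ * S.pt u v (i - 1), (S.pt u v i)⁻¹ * S.pt u v (i + 1)}

theorem len_self (u : G) : S.len u u = 0 := by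
  have := S.inj u u 0 (S.len u u) (Nat.zero_le _) le_rfl (by rw [S.zero, S.last])
  omega

/-- the portion from a later index to an earlier one -/
theorem sub_len' (u v : G) (i j : ℕ) (hij : i ≤ j) (hj : j ≤ S.len u v) :
    S.len (S.pt u v j) (S.pt u v i) = j - i := by
  rw [S.rev_len, S.sub_len u v i j hij hj]

theorem sub_pt' (u v : G) (i j t : ℕ) (hij : i ≤ j) (hj : j ≤ S.len u v) (ht : t ≤ j - i) :
    S.pt (S.pt u v j) (S.pt u v i) t = S.pt u v (j - t) := by
  rw [S.rev_pt, S.sub_len u v i j hij hj, S.sub_pt u v i j _ hij hj (by omega)]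
  congr 1; omega

/-- The middle of three coincidences has equal types. -/
theorem ty_eq_of_three (u v u' v' g : G) (i1 i2 i3 j1 j2 j3 : ℕ)
    (h12 : i1 < i2) (h23 : i2 < i3) (hi3 : i3 ≤ S.len u v)
    (hj1 : j1 ≤ S.len u' v') (hj2 : j2 ≤ S.len u' v') (hj3 : j3 ≤ S.len u' v')
    (e1 : S.pt u v i1 = g * S.pt u' v' j1) (e2 : S.pt u v i2 = g * S.pt u' v' j2)
    (e3 : S.pt u v i3 = g * S.pt u' v' j3) :
    S.ty u v i2 = S.ty u' v' j2 := by
  have hL : S.len (S.pt u' v' j1) (S.pt u' v' j3) = i3 - i1 := by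
    rw [← S.mul_len g, ← e1, ← e3, S.sub_len u v i1 i3 (by omega) hi3]
  have hP : ∀ t, t ≤ i3 - i1 →
      S.pt u v (i1 + t) = g * S.pt (S.pt u' v' j1) (S.pt u' v' j3) t := by
    intro t ht
    rw [← S.mul_pt g, ← e1, ← e3, S.sub_pt u v i1 i3 t (by omega) hi3 ht]
  rcases le_total j1 j3 with h | h
  · rw [S.sub_len u' v' j1 j3 h hj3] at hL
    have hQ : ∀ t, t ≤ i3 - i1 → S.pt u v (i1 + t) = g * S.pt u' v' (j1 + t) := by
      intro t ht
      rw [hP t ht, S.sub_pt u' v' j1 j3 t h hj3 (by omega)]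
    have hj : j2 = j1 + (i2 - i1) := by
      have h1 := hQ (i2 - i1) (by omega)
      rw [show i1 + (i2 - i1) = i2 by omega, e2] at h1
      exact S.inj u' v' _ _ hj2 (by omega) (mul_left_cancel h1)
    have a1 := hQ (i2 - i1 - 1) (by omega)
    have a2 := hQ (i2 - i1 + 1) (by omega)
    rw [show i1 + (i2 - i1 - 1) = i2 - 1 by omega,
      show j1 + (i2 - i1 - 1) = j2 - 1 by omega] at a1
    rw [show i1 + (i2 - i1 + 1) = i2 + 1 by omega,
      show j1 + (i2 - i1 + 1) = j2 + 1 by omega] at a2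
    unfold ty
    rw [a1, a2, e2]
    simp [mul_assoc]
  · rw [S.sub_len' u' v' j3 j1 h hj1] at hL
    have hQ : ∀ t, t ≤ i3 - i1 → S.pt u v (i1 + t) = g * S.pt u' v' (j1 - t) := by
      intro t ht
      rw [hP t ht, S.sub_pt' u' v' j3 j1 t h hj1 (by omega)]
    have hj : j2 = j1 - (i2 - i1) := by
      have h1 := hQ (i2 - i1) (by omega)
      rw [show i1 + (i2 - i1) = i2 by omega, e2] at h1
      exact S.inj u' v' _ _ hj2 (by omega) (mul_left_cancel h1)
    have a1 := hQ (i2 - i1 - 1) (by omega)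
    have a2 := hQ (i2 - i1 + 1) (by omega)
    rw [show i1 + (i2 - i1 - 1) = i2 - 1 by omega,
      show j1 - (i2 - i1 - 1) = j2 + 1 by omega] at a1
    rw [show i1 + (i2 - i1 + 1) = i2 + 1 by omega,
      show j1 - (i2 - i1 + 1) = j2 - 1 by omega] at a2
    unfold ty
    rw [a1, a2, e2, Set.pair_comm]
    simp [mul_assoc]

open Classical in
/-- Key lemma: few pairs of vertices have different types. -/
theorem card_pairs [Fintype G] (u v u' v' : G) :
    ((Ioo 0 (S.len u v) ×ˢ Ioo 0 (S.len u' v')).filter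
      (fun p => S.ty u v p.1 ≠ S.ty u' v' p.2)).card ≤ 2 * Fintype.card G := by
  have := Finset.card_le_mul_card_image_of_maps_to
    (s := (Ioo 0 (S.len u v) ×ˢ Ioo 0 (S.len u' v')).filter
      (fun p => S.ty u v p.1 ≠ S.ty u' v' p.2))
    (t := (univ : Finset G)) (f := fun p => S.pt u v p.1 * (S.pt u' v' p.2)⁻¹)
    (fun _ _ => mem_univ _) 2 ?_
  · simpa using this
  intro g _
  by_contra hcon
  push Not at hcon
  obtain ⟨a, b, c, ha, hb, hc, hab, hac, hbc⟩ := Finset.two_lt_card_iff.mp hcon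
  simp only [mem_filter, mem_product, mem_Ioo] at ha hb hc
  have key : ∀ p : ℕ × ℕ, S.pt u v p.1 * (S.pt u' v' p.2)⁻¹ = g →
      S.pt u v p.1 = g * S.pt u' v' p.2 := by
    intro p hp; rw [← hp]; simp
  have ea := key a ha.2
  have eb := key b hb.2
  have ec := key c hc.2
  have ne1 : ∀ p q : ℕ × ℕ, p.2 ≤ S.len u' v' → q.2 ≤ S.len u' v' →
      S.pt u v p.1 = g * S.pt u' v' p.2 → S.pt u v q.1 = g * S.pt u' v' q.2 → p ≠ q →
      p.1 ≠ q.1 := by
    intro p q hp hq ep eq hne h1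
    apply hne
    rw [h1, eq] at ep
    exact Prod.ext h1 (S.inj u' v' _ _ hq hp (mul_left_cancel ep)).symm
  have n1 := ne1 a b (by omega) (by omega) ea eb hab
  have n2 := ne1 a c (by omega) (by omega) ea ec hac
  have n3 := ne1 b c (by omega) (by omega) eb ec hbc
  have T : ∀ p q r : ℕ × ℕ, p.1 < q.1 → q.1 < r.1 → r.1 < S.len u v → p.2 < S.len u' v' →
      q.2 < S.len u' v' → r.2 < S.len u' v' →
      S.pt u v p.1 = g * S.pt u' v' p.2 → S.pt u v q.1 = g * S.pt u' v' q.2 →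
      S.pt u v r.1 = g * S.pt u' v' r.2 → S.ty u v q.1 = S.ty u' v' q.2 := by
    intro p q r h1 h2 h3 h4 h5 h6 e1 e2 e3
    exact S.ty_eq_of_three u v u' v' g _ _ _ _ _ _ h1 h2 h3.le h4.le h5.le h6.le e1 e2 e3
  have A1 := ha.1.1.1.2
  have A2 := ha.1.1.2.2
  have B1 := hb.1.1.1.2
  have B2 := hb.1.1.2.2
  have C1 := hc.1.1.1.2
  have C2 := hc.1.1.2.2
  rcases lt_or_gt_of_ne n1 with h1 | h1 <;> rcases lt_or_gt_of_ne n2 with h2 | h2 <;>
    rcases lt_or_gt_of_ne n3 with h3 | h3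
  · exact hb.1.2 (T a b c h1 h3 C1 A2 B2 C2 ea eb ec)
  · exact hc.1.2 (T a c b h2 h3 B1 A2 C2 B2 ea ec eb)
  · omega
  · exact ha.1.2 (T c a b h2 h1 B1 C2 A2 B2 ec ea eb)
  · exact ha.1.2 (T b a c h1 h2 C1 B2 A2 C2 eb ea ec)
  · omega
  · exact hc.1.2 (T b c a h3 h2 A1 B2 C2 A2 eb ec ea)
  · exact hb.1.2 (T c b a h3 h1 A1 C2 B2 A2 ec eb ea)

open Classical in
/-- the exceptional interior vertices with respect to a type `Y` -/
noncomputable def exc (Y : Set G) (u v : G) : Finset ℕ :=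
  (Ioo 0 (S.len u v)).filter (fun i => S.ty u v i ≠ Y)

open Classical in
theorem exists_major [Fintype G] (u v : G) (h : 1 < S.len u v) :
    ∃ i ∈ Ioo 0 (S.len u v),
      (S.exc (S.ty u v i) u v).card * (S.len u v - 1) ≤ 2 * Fintype.card G := by
  have h1 := S.card_pairs u v u v
  rw [card_filter, sum_product_right] at h1
  have hne : (Ioo 0 (S.len u v)).Nonempty := ⟨1, by simp [h]⟩
  obtain ⟨i, hi, hmin⟩ := exists_min_image (Ioo 0 (S.len u v))
    (fun i => (S.exc (S.ty u v i) u v).card) hne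
  refine ⟨i, hi, le_trans ?_ h1⟩
  have : ∑ j ∈ Ioo 0 (S.len u v), (S.exc (S.ty u v i) u v).card ≤
      ∑ j ∈ Ioo 0 (S.len u v), ∑ x ∈ Ioo 0 (S.len u v),
        if S.ty u v (x, j).1 ≠ S.ty u v (x, j).2 then 1 else 0 := by
    apply sum_le_sum
    intro j hj
    refine (hmin j hj).trans (le_of_eq ?_)
    unfold exc
    rw [card_filter]
  rw [sum_const, Nat.card_Ioo, smul_eq_mul, mul_comm] at this
  simpa using this

open Classical in
theorem exc_mul_le [Fintype G] (Y : Set G) (u v u' v' : G) :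
    (S.exc Y u v).card * (S.len u' v' - 1 - (S.exc Y u' v').card) ≤ 2 * Fintype.card G := by
  refine le_trans ?_ (S.card_pairs u v u' v')
  have h1 : S.len u' v' - 1 - (S.exc Y u' v').card =
      ((Ioo 0 (S.len u' v')).filter (fun i => ¬ S.ty u' v' i ≠ Y)).card := by
    have := card_filter_add_card_filter_not (s := Ioo 0 (S.len u' v'))
      (fun i => S.ty u' v' i ≠ Y)
    rw [Nat.card_Ioo] at this
    unfold exc
    omega
  rw [h1, ← card_product]
  apply card_le_card
  intro p hp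
  unfold exc at hp
  simp only [mem_product, mem_filter, not_not] at hp ⊢
  refine ⟨⟨hp.1.1, hp.2.1⟩, ?_⟩
  rw [hp.2.2]
  exact hp.1.2

end Sys

/-- A short set of naturals misses one of many blocks. -/
theorem exists_block (E : Finset ℕ) (w : ℕ) :
    ∃ k ≤ E.card, ∀ i ∈ E, ¬ (k * w < i ∧ i ≤ (k + 1) * w) := by
  by_contra hcon
  push Not at hcon
  have hsub : range (E.card + 1) ⊆ E.image (fun i => (i - 1) / w) := by
    intro k hk
    obtain ⟨i, hi, h1, h2⟩ := hcon k (by simpa [Nat.lt_succ_iff] using hk)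
    refine mem_image.mpr ⟨i, hi, ?_⟩
    apply Nat.div_eq_of_lt_le
    · omega
    · omega
  have := card_le_card hsub
  have h2 := card_image_le (s := E) (f := fun i => (i - 1) / w)
  rw [card_range] at this
  omega

end Pool.Agent.Lib.MP_8f0578_co
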