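import Pool.Agent.Lib.MP_8f0578_co.Core

open Finset
open scoped Pointwise

namespace Pool.Agent.Lib.MP_8f0578_co

variable {G : Type*} [Group G]

/-- truncated word metric -/
noncomputable def rho (Y : Set G) (r : ℕ) (x y : G) : ℕ :=
  sInf {j | j = r ∨ x⁻¹ * y ∈ Y ^ j}

theorem rho_le (Y : Set G) (r : ℕ) (x y : G) : rho Y r x y ≤ r :=
  Nat.sInf_le (Or.inl rfl)

theorem rho_le_of_mem (Y : Set G) (r j : ℕ) (x y : G) (h : x⁻¹ * y ∈ Y ^ j) :
    rho Y r x y ≤ j :=
  Nat.sInf_le (Or.inr h)

theorem rho_spec (Y : Set G) (r : ℕ) (x y : G) :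
    rho Y r x y = r ∨ x⁻¹ * y ∈ Y ^ (rho Y r x y) :=
  Nat.sInf_mem (s := {j | j = r ∨ x⁻¹ * y ∈ Y ^ j}) ⟨r, Or.inl rfl⟩

theorem rho_self (Y : Set G) (r : ℕ) (x : G) : rho Y r x x = 0 := by
  have := rho_le_of_mem Y r 0 x x (by simp)
  omega

theorem eq_of_rho (Y : Set G) (r : ℕ) (hr : 0 < r) (x y : G) (h : rho Y r x y = 0) : x = y := by
  rcases rho_spec Y r x y with h1 | h1
  · omega
  · rw [h, pow_zero, Set.mem_one] at h1
    exact inv_mul_eq_one.mp h1

theorem rho_comm (Y : Set G) (hY : Y⁻¹ = Y) (r : ℕ) (x y : G) : rho Y r x y = rho Y r y x := by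
  have key : ∀ x y : G, rho Y r y x ≤ rho Y r x y := by
    intro x y
    rcases rho_spec Y r x y with h1 | h1
    · rw [h1]; exact rho_le _ _ _ _
    · apply rho_le_of_mem
      have h2 : (x⁻¹ * y)⁻¹ ∈ (Y ^ rho Y r x y)⁻¹ := Set.inv_mem_inv.mpr h1
      rw [← inv_pow, hY] at h2
      simpa using h2
  exact le_antisymm (key y x) (key x y)

theorem rho_triangle (Y : Set G) (r : ℕ) (x y z : G) :
    rho Y r x z ≤ rho Y r x y + rho Y r y z := by
  rcases rho_spec Y r x y with h1 | h1
  · have := rho_le Y r x z; omega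
  rcases rho_spec Y r y z with h2 | h2
  · have := rho_le Y r x z; omega
  apply rho_le_of_mem
  rw [pow_add]
  have := Set.mul_mem_mul h1 h2
  simpa [mul_assoc] using this

theorem rho_mul (Y : Set G) (r : ℕ) (g x y : G) : rho Y r (g * x) (g * y) = rho Y r x y := by
  unfold rho
  simp [mul_assoc]

namespace Sys

variable (S : Sys G)

/-- cost of the canonical path for a function `d` -/
def cost (d : G → G → ℕ) (u v : G) : ℕ :=
  ∑ t ∈ range (S.len u v), d (S.pt u v t) (S.pt u v (t + 1))

theorem next_mem_ty (u v : G) (i : ℕ) : (S.pt u v i)⁻¹ * S.pt u v (i + 1) ∈ S.ty u v i := by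
  simp [ty]

theorem prev_mem_ty (u v : G) (i : ℕ) : (S.pt u v i)⁻¹ * S.pt u v (i - 1) ∈ S.ty u v i := by
  simp [ty]

theorem cost_le (Y : Set G) (r : ℕ) (u v : G) :
    S.cost (rho Y r) u v ≤ r * ((S.exc Y u v).card + 1) + S.len u v := by
  classical
  unfold cost
  have h1 : ∀ t ∈ range (S.len u v), rho Y r (S.pt u v t) (S.pt u v (t + 1)) ≤
      (if t ∈ insert 0 (S.exc Y u v) then r else 0) + 1 := by
    intro t ht
    split_ifs with h
    · exact (rho_le _ _ _ _).trans (Nat.le_succ _)
    · apply rho_le_of_mem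
      rw [zero_add, pow_one]
      have h2 : S.ty u v t = Y := by
        by_contra hne
        apply h
        rw [mem_insert]
        by_cases h0 : t = 0
        · exact Or.inl h0
        · right
          unfold exc
          simp only [mem_filter, mem_Ioo]
          exact ⟨⟨by omega, mem_range.mp ht⟩, hne⟩
      rw [← h2]
      exact S.next_mem_ty u v t
  refine (sum_le_sum h1).trans ?_
  rw [sum_add_distrib, sum_const, card_range, smul_eq_mul, mul_one, ← sum_filter, sum_const,
    smul_eq_mul, mul_comm]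
  gcongr
  calc _ ≤ (insert 0 (S.exc Y u v)).card := by
        apply card_le_card
        intro t ht
        exact (mem_filter.mp ht).2
    _ ≤ _ := card_insert_le _ _

theorem cost_mul (Y : Set G) (r : ℕ) (g u v : G) :
    S.cost (rho Y r) (g * u) (g * v) = S.cost (rho Y r) u v := by
  unfold cost
  simp only [S.mul_len, S.mul_pt, rho_mul]

/-- In a long run of vertices of type `Y`, words in `Y` stay on the path. -/
theorem run_walk (Y : Set G) (r : ℕ) (a b : G) (c : ℕ)
    (hrun : ∀ i, c < i + r → i < c + r → S.ty a b i = Y) (j : ℕ) (hj : j ≤ r) :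
    ∀ g ∈ Y ^ j, ∃ i, c ≤ i + j ∧ i ≤ c + j ∧ S.pt a b c * g = S.pt a b i := by
  induction j with
  | zero =>
    intro g hg
    rw [pow_zero, Set.mem_one] at hg
    exact ⟨c, by omega, by omega, by simp [hg]⟩
  | succ j ih =>
    intro g hg
    rw [pow_succ] at hg
    obtain ⟨g', hg', y, hy, rfl⟩ := Set.mem_mul.mp hg
    obtain ⟨i, h1, h2, h3⟩ := ih (by omega) g' hg'
    rw [← hrun i (by omega) (by omega)] at hy
    rcases hy with hy | hy
    · exact ⟨i - 1, by omega, by omega, by rw [← mul_assoc, h3, hy]; simp⟩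
    · exact ⟨i + 1, by omega, by omega, by
        rw [← mul_assoc, h3, Set.mem_singleton_iff.mp hy]; simp⟩

theorem run_symm (Y : Set G) (a b : G) (c : ℕ) (hc : 1 ≤ c)
    (h0 : S.ty a b c = Y) (h1 : S.ty a b (c - 1) = Y) (h2 : S.ty a b (c + 1) = Y) :
    Y⁻¹ = Y := by
  have key : ∀ y ∈ Y, y⁻¹ ∈ Y := by
    intro y hy
    rw [← h0] at hy
    rcases hy with hy | hy
    · have := S.next_mem_ty a b (c - 1)
      rw [h1, show c - 1 + 1 = c by omega] at this
      rw [hy]
      simpa using this
    · have := S.prev_mem_ty a b (c + 1)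
      rw [h2, show c + 1 - 1 = c by omega] at this
      rw [Set.mem_singleton_iff.mp hy]
      simpa using this
  ext y
  constructor
  · intro hy
    simpa using key _ (Set.mem_inv.mp hy)
  · intro hy
    exact Set.mem_inv.mpr (key y hy)

theorem cost_short (Y : Set G) (r : ℕ) (a b : G) (c : ℕ) (hc : r ≤ c) (hc' : c + r ≤ S.len a b)
    (hrun : ∀ i, c < i + r → i < c + r → S.ty a b i = Y) (u v : G) (j : ℕ) (hj : j ≤ r)
    (h : u⁻¹ * v ∈ Y ^ j) : S.cost (rho Y r) u v ≤ j := by
  obtain ⟨i, h1, h2, h3⟩ := S.run_walk Y r a b c hrun j hj _ h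
  rw [← S.cost_mul Y r (S.pt a b c * u⁻¹), mul_assoc _ _ v, h3, inv_mul_cancel_right]
  unfold cost
  rcases le_total c i with hci | hci
  · rw [S.sub_len a b c i hci (by omega)]
    calc _ ≤ ∑ _t ∈ range (i - c), 1 := by
          apply sum_le_sum
          intro t ht
          have ht' := mem_range.mp ht
          rw [S.sub_pt a b c i t hci (by omega) (by omega),
            S.sub_pt a b c i (t + 1) hci (by omega) (by omega)]
          apply rho_le_of_mem
          rw [pow_one, ← hrun (c + t) (by omega) (by omega)]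
          exact S.next_mem_ty a b (c + t)
      _ ≤ j := by simp; omega
  · rw [S.sub_len' a b i c hci (by omega)]
    calc _ ≤ ∑ _t ∈ range (c - i), 1 := by
          apply sum_le_sum
          intro t ht
          have ht' := mem_range.mp ht
          rw [S.sub_pt' a b i c t hci (by omega) (by omega),
            S.sub_pt' a b i c (t + 1) hci (by omega) (by omega)]
          apply rho_le_of_mem
          rw [pow_one, ← hrun (c - t) (by omega) (by omega)]
          exact S.prev_mem_ty a b (c - t)
      _ ≤ j := by simp; omega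

/-- Main combinatorial theorem: an integer metric with stretch at most `9 * sqrt n`. -/
theorem main [Fintype G] : ∃ (Y : Set G) (r : ℕ), Y⁻¹ = Y ∧ 0 < r ∧
    ∀ u v, S.cost (rho Y r) u v ≤ 9 * Nat.sqrt (Fintype.card G) * rho Y r u v := by
  classical
  set n := Fintype.card G with hn
  set m := Nat.sqrt n with hm
  have hn1 : 0 < n := Fintype.card_pos
  have hm1 : 0 < m := Nat.sqrt_pos.mpr hn1
  have hnm : n < (m + 1) * (m + 1) := Nat.lt_succ_sqrt n
  have hn4 : n < 4 * (m * m) := by nlinarith
  obtain ⟨⟨a, b⟩, -, hmax⟩ := exists_max_image (univ : Finset (G × G))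
    (fun p => S.len p.1 p.2) univ_nonempty
  have hmax' : ∀ u v, S.len u v ≤ S.len a b := fun u v => hmax (u, v) (mem_univ _)
  by_cases hK : S.len a b ≤ 9 * m
  · refine ⟨∅, 1, by simp, one_pos, fun u v => ?_⟩
    by_cases huv : u = v
    · subst huv
      simp [cost, S.len_self]
    · have h1 : 1 ≤ rho (∅ : Set G) 1 u v := by
        by_contra h
        exact huv (eq_of_rho ∅ 1 one_pos u v (by omega))
      have h2 : S.cost (rho ∅ 1) u v ≤ S.len u v := by
        unfold cost
        calc _ ≤ ∑ _t ∈ range (S.len u v), 1 := sum_le_sum (fun t _ => rho_le _ _ _ _)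
          _ = _ := by simp
      have := hmax' u v
      nlinarith
  · push Not at hK
    obtain ⟨i0, -, hi0⟩ := S.exists_major a b (by omega)
    set Y := S.ty a b i0 with hY
    set L := S.len a b - 1 with hL
    have hL9 : 9 * m ≤ L := by omega
    set N := (S.exc Y a b).card with hN
    have hNm : N < m := by
      by_contra h
      push Not at h
      have : m * (9 * m) ≤ N * L := Nat.mul_le_mul h hL9
      nlinarith
    have hE : ∀ u v, (S.exc Y u v).card < m := by
      intro u v
      have h1 := S.exc_mul_le Y u v a b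
      by_contra h
      push Not at h
      have : m * (8 * m) ≤ (S.exc Y u v).card * (S.len a b - 1 - (S.exc Y a b).card) :=
        Nat.mul_le_mul h (by omega)
      nlinarith
    set r := L / (4 * m) with hr
    have hr2 : 2 ≤ r := by
      rw [hr, Nat.le_div_iff_mul_le (by omega)]; omega
    have hr3 : 4 * m * r ≤ L := Nat.mul_div_le L (4 * m)
    have hr4 : L < 4 * m * (r + 1) := Nat.lt_mul_div_succ L (by omega)
    obtain ⟨k, hk, hblock⟩ := exists_block (S.exc Y a b) (2 * r)
    have hk2 : (k + 1) * (2 * r) ≤ L := by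
      have : (k + 1) * (2 * r) ≤ m * (2 * r) := Nat.mul_le_mul_right _ (by omega)
      nlinarith
    have hk3 : (k + 1) * (2 * r) = k * (2 * r) + 2 * r := by ring
    set c := k * (2 * r) + r with hc
    have hrun : ∀ i, c < i + r → i < c + r → S.ty a b i = Y := by
      intro i h1 h2
      by_contra hne
      apply hblock i
      · unfold exc
        simp only [mem_filter, mem_Ioo]
        exact ⟨⟨by omega, by omega⟩, hne⟩
      · constructor <;> omega
    have hsymm : Y⁻¹ = Y := S.run_symm Y a b c (by omega) (hrun _ (by omega) (by omega))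
      (hrun _ (by omega) (by omega)) (hrun _ (by omega) (by omega))
    refine ⟨Y, r, hsymm, by omega, fun u v => ?_⟩
    rcases rho_spec Y r u v with h | h
    · rw [h]
      have h1 := S.cost_le Y r u v
      have h2 := hE u v
      have h3 := hmax' u v
      have h4 : r * ((S.exc Y u v).card + 1) ≤ r * m := Nat.mul_le_mul_left _ h2
      have h5 : S.len u v ≤ 4 * m * (r + 1) := by omega
      nlinarith
    · have h1 := S.cost_short Y r a b c (by omega) (by omega) hrun u v _ (rho_le Y r u v) h
      nlinarith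

end Sys

end Pool.Agent.Lib.MP_8f0578_co
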